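import Pool.Agent.Seat79.ZMom

/-!
# Anti-concentration of z-permanents of Gaussian matrices

The polynomial `p(n, y) = e ^ (π ^ 2 / 2) * y ^ 2` works.

Idea. Let `V k` be the sum of the squared moduli of all `k × k` `z`-minors of the first `k` rows.
Given these rows, `V (k + 1)` is a sum of squared moduli of linear forms in the next row, whose
conditional expectation is `(n - k) * V k`. By Jensen's inequality for `t ^ (-s)`, `0 < s < 1`, the
conditional expectation of `V (k + 1) ^ (-s)` is at most `Γ (1 - s) * ((n - k) * V k) ^ (-s)`. So the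
expectation of `|Per_z| ^ (-2 s)` is at most `Γ (1 - s) ^ n * (n!) ^ (-s)`.
-/

set_option autoImplicit false

open MeasureTheory ProbabilityTheory

namespace Pool.Agent.Results.MP_5f83d6_pr.AntiConcentration

/-- The law of a standard complex Gaussian variable: the real and the imaginary part are independent
real Gaussian variables with mean `0` and variance `1 / 2`. -/
noncomputable def stdComplexGaussian : Measure ℂ :=
  ((gaussianReal 0 (1 / 2)).prod (gaussianReal 0 (1 / 2))).map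
    (fun q : ℝ × ℝ => (⟨q.1, q.2⟩ : ℂ))

/-- The law of an `n × n` matrix with independent standard complex Gaussian entries. -/
noncomputable def gaussianMatrix (n : ℕ) : Measure (Fin n → Fin n → ℂ) :=
  Measure.pi fun _ : Fin n => Measure.pi fun _ : Fin n => stdComplexGaussian

/-- The inversion number of a permutation: the number of pairs `i < j` with `σ i > σ j`. -/
def inversions {n : ℕ} (σ : Equiv.Perm (Fin n)) : ℕ :=
  (Finset.univ.filter fun p : Fin n × Fin n => p.1 < p.2 ∧ σ p.1 > σ p.2).card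

/-- The `z`-permanent. -/
noncomputable def zPermanent {n : ℕ} (z : ℂ) (X : Fin n → Fin n → ℂ) : ℂ :=
  ∑ σ : Equiv.Perm (Fin n), z ^ inversions σ * ∏ i, X i (σ i)

/-- **Answer to Q1: yes.** There is a polynomial `p` in two variables such that for all `n ≥ 1`,
all `δ > 0` and all complex `z` of modulus one, `p (n, 1 / δ) > 0` and
`|Per_z(X)| ^ 2 ≥ √(n!) / p (n, 1 / δ)` with probability at least `1 - δ`. -/
theorem result : ∃ p : MvPolynomial (Fin 2) ℝ, ∀ n : ℕ, 1 ≤ n → ∀ δ : ℝ, 0 < δ →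
    ∀ z : ℂ, ‖z‖ = 1 →
      0 < MvPolynomial.eval ![(n : ℝ), 1 / δ] p ∧
      1 - δ ≤ (gaussianMatrix n).real {X | √(n.factorial : ℝ) / MvPolynomial.eval ![(n : ℝ), 1 / δ] p
        ≤ ‖zPermanent z X‖ ^ 2} := by
  refine ⟨MvPolynomial.C (Real.exp (Real.pi ^ 2 / 2)) * MvPolynomial.X 1 ^ 2, ?_⟩
  intro n _ δ hδ z hz
  have hp : MvPolynomial.eval ![(n : ℝ), 1 / δ]
      (MvPolynomial.C (Real.exp (Real.pi ^ 2 / 2)) * MvPolynomial.X 1 ^ 2) =
      Real.exp (Real.pi ^ 2 / 2) * (1 / δ) ^ 2 := by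
    simp
  rw [hp]
  have hp0 : 0 < Real.exp (Real.pi ^ 2 / 2) * (1 / δ) ^ 2 := by positivity
  refine ⟨hp0, ?_⟩
  have : IsProbabilityMeasure stdComplexGaussian :=
    inferInstanceAs (IsProbabilityMeasure Pool.Agent.Seat79.ZPerm.cgauss)
  have hprob : IsProbabilityMeasure (gaussianMatrix n) := by
    unfold gaussianMatrix; infer_instance
  set F : ℝ := (n.factorial : ℝ) with hF
  have hF0 : 0 < F := by rw [hF]; exact_mod_cast n.factorial_pos
  set θ : ℝ := √F / (Real.exp (Real.pi ^ 2 / 2) * (1 / δ) ^ 2) with hθ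
  have hθ0 : 0 < θ := by positivity
  have hsb := Pool.Agent.Seat79.ZPerm.small_ball z hz n (1 / 2) (by norm_num) (by norm_num) θ hθ0
  have hcont : Continuous fun X : Fin n → Fin n → ℂ => ‖zPermanent z X‖ ^ 2 := by
    unfold zPermanent
    fun_prop
  have hms : MeasurableSet {X : Fin n → Fin n → ℂ | θ ≤ ‖zPermanent z X‖ ^ 2} :=
    measurableSet_le measurable_const hcont.measurable
  have hcompl := prob_compl_eq_one_sub (μ := gaussianMatrix n) hms
  have hset : {X : Fin n → Fin n → ℂ | θ ≤ ‖zPermanent z X‖ ^ 2}ᶜ =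
      {X | ‖Pool.Agent.Seat79.ZPerm.zPer z X‖ ^ 2 < θ} := by
    ext X
    simp only [Set.mem_compl_iff, Set.mem_ofPred_eq, not_le]
    rfl
  have hbound : θ ^ (1 / 2 : ℝ) * (Real.Gamma (1 - 1 / 2) ^ n * F ^ (-(1 / 2) : ℝ)) ≤ δ := by
    have hG : Real.Gamma (1 - 1 / 2) = √Real.pi := by
      rw [← Real.Gamma_one_half_eq]; norm_num
    rw [hG]
    have h1 : θ ^ (1 / 2 : ℝ) = √θ := (Real.sqrt_eq_rpow θ).symm
    have h2 : F ^ (-(1 / 2) : ℝ) = (√F)⁻¹ := by
      rw [Real.rpow_neg hF0.le, ← Real.sqrt_eq_rpow]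
    rw [h1, h2]
    have h3 : √θ = √(√F) / (Real.exp (Real.pi ^ 2 / 4) * (1 / δ)) := by
      rw [hθ, Real.sqrt_div (Real.sqrt_nonneg _)]
      congr 1
      rw [Real.sqrt_eq_iff_mul_self_eq (by positivity) (by positivity)]
      have : Real.exp (Real.pi ^ 2 / 2) = Real.exp (Real.pi ^ 2 / 4) * Real.exp (Real.pi ^ 2 / 4) := by
        rw [← Real.exp_add]; congr 1; ring
      rw [this]
      ring
    rw [h3]
    -- `π ^ (n / 2) ≤ e ^ (π ^ 2 / 4) * (n!) ^ (1 / 4)`
    have h4 : √Real.pi ^ n ≤ Real.exp (Real.pi ^ 2 / 4) * √(√F) := by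
      have h5 := Real.pow_div_factorial_le_exp (Real.pi ^ 2) (by positivity) n
      rw [div_le_iff₀ hF0] at h5
      refine le_of_pow_le_pow_left₀ (n := 4) (by norm_num) (by positivity) ?_
      have h6 : (√Real.pi ^ n) ^ 4 = (Real.pi ^ 2) ^ n := by
        rw [← pow_mul, mul_comm n 4, pow_mul]
        congr 1
        calc √Real.pi ^ 4 = (√Real.pi ^ 2) ^ 2 := by ring
          _ = Real.pi ^ 2 := by rw [Real.sq_sqrt Real.pi_pos.le]
      have h7 : (Real.exp (Real.pi ^ 2 / 4) * √(√F)) ^ 4 = Real.exp (Real.pi ^ 2) * F := by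
        rw [mul_pow, ← Real.exp_nat_mul]
        congr 1
        · congr 1; push_cast; ring
        · calc √(√F) ^ 4 = (√(√F) ^ 2) ^ 2 := by ring
            _ = F := by rw [Real.sq_sqrt (Real.sqrt_nonneg _), Real.sq_sqrt hF0.le]
      rw [h6, h7]
      exact h5
    have hS : 0 < √(√F) := by positivity
    have hS2 : √F = √(√F) * √(√F) := (Real.mul_self_sqrt (Real.sqrt_nonneg _)).symm
    obtain ⟨R, hR⟩ : ∃ R, R = √(√F) := ⟨_, rfl⟩
    rw [← hR] at hS hS2 h4 ⊢
    rw [hS2]
    calc R / (Real.exp (Real.pi ^ 2 / 4) * (1 / δ)) * (√Real.pi ^ n * (R * R)⁻¹)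
        ≤ R / (Real.exp (Real.pi ^ 2 / 4) * (1 / δ)) *
          ((Real.exp (Real.pi ^ 2 / 4) * R) * (R * R)⁻¹) := by gcongr
      _ = δ := by
        have hE := Real.exp_pos (Real.pi ^ 2 / 4)
        field_simp
  have hle : (gaussianMatrix n) {X : Fin n → Fin n → ℂ | θ ≤ ‖zPermanent z X‖ ^ 2}ᶜ ≤
      ENNReal.ofReal δ := by
    rw [hset]
    exact hsb.trans (ENNReal.ofReal_le_ofReal hbound)
  have h8 : (gaussianMatrix n).real {X : Fin n → Fin n → ℂ | θ ≤ ‖zPermanent z X‖ ^ 2}ᶜ ≤ δ := by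
    rw [Measure.real]
    exact ENNReal.toReal_le_of_le_ofReal hδ.le hle
  rw [probReal_compl_eq_one_sub hms] at h8
  linarith

end Pool.Agent.Results.MP_5f83d6_pr.AntiConcentration
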