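import Pool.Agent.Seat79.ZMom

/-!
# Small ball probabilities of z-permanents up to an exponential factor

`|Per_z(X)| ^ 2` is at least `n!` up to a factor which is exponential in `n`, uniformly in `z`.
-/

set_option autoImplicit false

open MeasureTheory ProbabilityTheory

namespace Pool.Agent.Results.MP_5f83d6_pr.ExponentialFactor

/-- The law of a standard complex Gaussian variable: the real and the imaginary part are independent
real Gaussian variables with mean `0` and variance `1 / 2`. -/
noncomputable def stdComplexGaussian : Measure ℂ :=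
  ((gaussianReal 0 (1 / 2)).prod (gaussianReal 0 (1 / 2))).map
    (fun q : ℝ × ℝ => (⟨q.1, q.2⟩ : ℂ))

/-- The law of an `n × n` matrix with independent standard complex Gaussian entries. -/
noncomputable def gaussianMatrix (n : ℕ) : Measure (Fin n → Fin n → ℂ) :=
  Measure.pi fun _ : Fin n => Measure.pi fun _ : Fin n => stdComplexGaussian

/-- The inversion number of a permutation: the number of pairs `i < j` with `σ i > σ j`. -/
def inversions {n : ℕ} (σ : Equiv.Perm (Fin n)) : ℕ :=
  (Finset.univ.filter fun p : Fin n × Fin n => p.1 < p.2 ∧ σ p.1 > σ p.2).card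

/-- The `z`-permanent. -/
noncomputable def zPermanent {n : ℕ} (z : ℂ) (X : Fin n → Fin n → ℂ) : ℂ :=
  ∑ σ : Equiv.Perm (Fin n), z ^ inversions σ * ∏ i, X i (σ i)

/-- For all `n`, all `z` of modulus one, all `0 < s < 1` and `t > 0`, the probability of
`|Per_z(X)| ^ 2 < t * n!` is at most `Γ (1 - s) ^ n * t ^ s`. -/
theorem result : ∀ n : ℕ, ∀ z : ℂ, ‖z‖ = 1 → ∀ s : ℝ, 0 < s → s < 1 → ∀ t : ℝ, 0 < t →
    (gaussianMatrix n).real {X | ‖zPermanent z X‖ ^ 2 < t * (n.factorial : ℝ)} ≤
      Real.Gamma (1 - s) ^ n * t ^ s := by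
  intro n z hz s h0 h1 t ht
  have hF0 : (0 : ℝ) < (n.factorial : ℝ) := by exact_mod_cast n.factorial_pos
  have hsb := Pool.Agent.Seat79.ZPerm.small_ball z hz n s h0 h1 (t * (n.factorial : ℝ))
    (by positivity)
  have hG : 0 < Real.Gamma (1 - s) := Real.Gamma_pos_of_pos (by linarith)
  refine ENNReal.toReal_le_of_le_ofReal (by positivity) (hsb.trans (le_of_eq ?_))
  congr 1
  rw [Real.mul_rpow ht.le hF0.le, Real.rpow_neg hF0.le]
  have : (n.factorial : ℝ) ^ s ≠ 0 := (Real.rpow_pos_of_pos hF0 _).ne'
  field_simp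

end Pool.Agent.Results.MP_5f83d6_pr.ExponentialFactor
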